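import Pool.Agent.MP_bd9604_nt.Struct

/-! Points with infinitely many expansions: traps, loops and terminal nodes. -/

namespace Pool.Agent.KExp

def Inft (x y : ℝ) : Prop := (Ex x y).encard = ⊤

/-- `z` is reached from `y` along a nonempty word -/
def SR (x y z : ℝ) : Prop := ∃ s : ℤ, (s = 1 ∨ s = -1) ∧ Rch x ((y - s) / x) z

lemma encard_neg (x y : ℝ) : (Ex x (-y)).encard = (Ex x y).encard := by
  have key : ∀ y : ℝ, (Ex x y).encard ≤ (Ex x (-y)).encard := fun y => by
    refine Set.encard_le_encard_of_injOn (f := fun w i => - w i) (fun w hw => ?_) ?_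
    · exact ⟨hw.1.neg, by rw [T_neg, hw.2]⟩
    · intro a _ b _ h
      funext i
      have := congrFun h i
      simpa using this
  refine le_antisymm ?_ (key y)
  simpa using key (-y)

lemma encard_abs (x y : ℝ) : (Ex x |y|).encard = (Ex x y).encard := by
  rcases abs_choice y with h | h <;> rw [h]
  exact encard_neg x y

lemma Inft.neg {x y : ℝ} (h : Inft x y) : Inft x (-y) := by unfold Inft; rwa [encard_neg]

lemma inft_neg {x y : ℝ} : Inft x (-y) ↔ Inft x y := by unfold Inft; rw [encard_neg]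

lemma inft_abs {x y : ℝ} : Inft x |y| ↔ Inft x y := by unfold Inft; rw [encard_abs]

lemma Rch.neg {x y z : ℝ} (h : Rch x y z) : Rch x (-y) (-z) := by
  induction h with
  | refl => exact Rch.refl _ _
  | tail _ h2 ih =>
    obtain ⟨s, hs, e⟩ := h2
    exact ih.trans (Rch.one (s := -s) (by omega) (by rw [e]; push_cast; ring))

lemma SR.neg {x y z : ℝ} (h : SR x y z) : SR x (-y) (-z) := by
  obtain ⟨s, hs, h⟩ := h
  refine ⟨-s, by omega, ?_⟩
  have := h.neg
  rwa [show -((y - s) / x) = (-y - ((-s : ℤ) : ℝ)) / x by push_cast; ring] at this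

lemma SR.rch {x y z : ℝ} (h0 : 0 < x) (h : SR x y z) : Rch x y z := by
  obtain ⟨s, hs, h⟩ := h
  exact (Rch.one hs (by field_simp; ring)).trans h

lemma SR.trans_rch {x y z w : ℝ} (h : SR x y z) (h' : Rch x z w) : SR x y w := by
  obtain ⟨s, hs, h⟩ := h
  exact ⟨s, hs, h.trans h'⟩

lemma SR.of_ev {x : ℝ} (h0 : 0 < x) {s : ℤ} {w : List ℤ} (hw : ∀ r ∈ s :: w, r = 1 ∨ r = -1)
    (z : ℝ) : SR x (ev x (s :: w) z) z := by
  refine ⟨s, hw s (by simp), ?_⟩
  rw [ev, show ((s : ℝ) + x * ev x w z - s) / x = ev x w z by field_simp; ring]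
  exact rch_ev x z w fun r hr => hw r (by simp [hr])

lemma Rch.inft {x y z : ℝ} (h0 : 0 < x) (h1 : x < 1) (h : Rch x y z) (hz : Inft x z) :
    Inft x y := by
  have := h.encard_le h0 h1
  unfold Inft at *
  rwa [hz, top_le_iff] at this

lemma SR.inft {x y z : ℝ} (h0 : 0 < x) (h1 : x < 1) (h : SR x y z) (hz : Inft x z) :
    Inft x y := (h.rch h0).inft h0 h1 hz

/-- the number of expansions drops strictly below a node -/
lemma SR.lt {x y z : ℝ} (h0 : 1 / 2 ≤ x) (h1 : x < 1) (hy : |y| ≤ kap x) (h : SR x y z)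
    (hf : ¬ Inft x y) : (Ex x z).encard < (Ex x y).encard := by
  obtain ⟨s, hs, h⟩ := h
  have hx : 0 < x := by linarith
  have h2 := h.encard_le hx h1
  have h3 := encard_split hx h1 y
  obtain ⟨h4, h5⟩ := hole_branch h0 h1 hy
  unfold Inft at hf
  refine lt_of_le_of_lt h2 ?_
  rw [h3] at hf ⊢
  obtain ⟨ha, hb⟩ := WithTop.add_ne_top.1 hf
  rcases hs with rfl | rfl
  · simp only [Int.cast_one]
    exact ENat.lt_add_one_iff ha |>.2 le_rfl |>.trans_le (by gcongr)
  · simp only [Int.cast_neg, Int.cast_one, sub_neg_eq_add]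
    rw [add_comm (Ex x ((y - 1) / x)).encard]
    exact ENat.lt_add_one_iff hb |>.2 le_rfl |>.trans_le (by gcongr)

/-- induction on the number of expansions -/
lemma fin_ind {x : ℝ} {Q : ℝ → Prop}
    (h : ∀ y, ¬ Inft x y → (∀ z, (Ex x z).encard < (Ex x y).encard → Q z) → Q y) :
    ∀ y, ¬ Inft x y → Q y := by
  have key : ∀ n : ℕ, ∀ y, (Ex x y).encard = n → Q y := fun n => by
    induction n using Nat.strong_induction_on with
    | _ n ih =>
    intro y hy
    refine h y (by unfold Inft; rw [hy]; exact ENat.natCast_ne_top n) fun z hz => ?_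
    obtain ⟨m, hm⟩ := ENat.ne_top_iff_exists.1 (ne_top_of_lt hz)
    refine ih m ?_ z hm.symm
    rw [hy, ← hm] at hz
    exact_mod_cast hz
  intro y hy
  obtain ⟨m, hm⟩ := ENat.ne_top_iff_exists.1 hy
  exact key m y hm.symm

theorem trap {x : ℝ} (h0 : 1 / 2 ≤ x) (h1 : x < 1) {V : ℝ → Prop}
    (h : ∀ y, V y → |y| ≤ kap x ∧ ∃ z, SR x y z ∧ V z) : ∀ y, V y → Inft x y := by
  intro y hy
  by_contra hf
  refine fin_ind (x := x) (Q := fun y => ¬ V y) (fun y hf ih hy => ?_) y hf hy
  obtain ⟨h2, z, h3, h4⟩ := h y hy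
  exact ih z (h3.lt h0 h1 h2 hf) h4

theorem loop_inft {x y : ℝ} (h0 : 1 / 2 ≤ x) (h1 : x < 1) (hy : |y| ≤ kap x)
    (h : SR x y y ∨ SR x y (-y)) : Inft x y := by
  by_contra hf
  rcases h with h | h
  · exact lt_irrefl _ (h.lt h0 h1 hy hf)
  · have := h.lt h0 h1 hy hf
    rw [encard_neg] at this
    exact lt_irrefl _ this

/-- a point with two expansions reaches a node -/
lemma exists_node {x : ℝ} (h0 : 0 < x) (h1 : x < 1) {y : ℝ} (h : ¬ Uq x y) :
    ∃ z, Rch x y z ∧ |z| ≤ kap x := by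
  classical
  unfold Uq at h
  rw [Set.not_subsingleton_iff] at h
  obtain ⟨w, hw, v, hv, hne⟩ := h
  have hex : ∃ i, w i ≠ v i := by
    by_contra hc; push Not at hc; exact hne (funext hc)
  obtain ⟨n, hn, hmin⟩ : ∃ n, w n ≠ v n ∧ ∀ i < n, w i = v i :=
    ⟨Nat.find hex, Nat.find_spec hex, fun i hi => by simpa using Nat.find_min hex hi⟩
  clear hex hne
  induction n generalizing y w v with
  | zero =>
    refine ⟨y, Rch.refl _ _, ?_⟩
    by_contra hc
    push Not at hc
    rcases lt_abs.1 hc with c | c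
    · exact hn ((forced_head h0 h1 (s := 1) (by simp) (by simpa using c) hw).trans
        (forced_head h0 h1 (s := 1) (by simp) (by simpa using c) hv).symm)
    · exact hn ((forced_head h0 h1 (s := -1) (by simp) (by simpa using c) hw).trans
        (forced_head h0 h1 (s := -1) (by simp) (by simpa using c) hv).symm)
  | succ n ih =>
    have e : y = w 0 + x * ((y - w 0) / x) := by field_simp; ring
    have h2 := tail_mem h0 h1 hw e
    have h3 := tail_mem h0 h1 hv (by rw [← hmin 0 (by omega)]; exact e)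
    obtain ⟨z, h4, h5⟩ := ih _ h2 _ h3 hn fun i hi => hmin (i + 1) (by omega)
    exact ⟨z, (Rch.one (hw.1 0) e).trans h4, h5⟩

/-- if some node has finitely many expansions there is a terminal node -/
theorem exists_term {x : ℝ} (h0 : 1 / 2 ≤ x) (h1 : x < 1) {y : ℝ} (hy : |y| ≤ kap x)
    (hf : ¬ Inft x y) : ∃ v, 0 ≤ v ∧ v ≤ kap x ∧ Term x v := by
  have hx : 0 < x := by linarith
  refine fin_ind (x := x) (Q := fun y => |y| ≤ kap x → ∃ v, 0 ≤ v ∧ v ≤ kap x ∧ Term x v)
    (fun y hf ih hy => ?_) y hf hy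
  by_cases ht : Term x y
  · exact ⟨|y|, abs_nonneg _, hy, ht.abs⟩
  · rcases not_and_or.1 ht with h | h
    · obtain ⟨z, h2, h3⟩ := exists_node hx h1 h
      exact ih z (SR.lt h0 h1 hy ⟨1, by simp, by simpa using h2⟩ hf) h3
    · obtain ⟨z, h2, h3⟩ := exists_node hx h1 h
      exact ih z (SR.lt h0 h1 hy ⟨-1, by simp, by simpa using h2⟩ hf) h3

/-- nothing reached from a terminal point along a nonempty word has two expansions -/
lemma Term.sr_uq {x y z : ℝ} (h0 : 0 < x) (h1 : x < 1) (ht : Term x y) (h : SR x y z) :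
    Uq x z := by
  obtain ⟨s, rfl | rfl, h⟩ := h
  · exact h.uq h0 h1 (by simpa using ht.1)
  · exact h.uq h0 h1 (by simpa using ht.2)

end Pool.Agent.KExp
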