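import Mathlib.Data.Nat.Notation

/-! The packed interval checker: definitions. -/

namespace Pool.Agent.KExp

/-- tables of intervals; an end `(s, c)` stands for `(s - 1) * x / (1 - x) + c / 2 ^ S - 1` -/
inductive Tb : Type
  | leaf (sl cl sh ch : ℕ) : Tb
  | node (l r : Tb) : Tb

/-- search trees of gaps -/
inductive Gt : Type
  | nil : Gt
  | node (L : Gt) (l h : ℕ) (R : Gt) : Gt

/-- the number with `k` digits `1` in base `2 ^ W` -/
def ones (W k : ℕ) : ℕ := Nat.div (Nat.sub (Nat.shiftLeft 1 (Nat.mul W k)) 1) (Nat.sub (Nat.shiftLeft 1 W) 1)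

/-- moves fields of `w` bits to slots of `W` bits (nothing is proved or needed about it) -/
noncomputable def spread (W w : ℕ) (L : ℕ) : ℕ → ℕ → ℕ :=
  Nat.rec (fun _ Z => Z) (fun l ih O Z =>
    (fun lo => ih (Nat.add O (Nat.shiftLeft O (Nat.shiftLeft W l)))
      (Nat.add lo (Nat.shiftLeft (Nat.sub Z lo) (Nat.shiftLeft (Nat.sub W w) l))))
      (Nat.land Z (Nat.mul O (Nat.sub (Nat.shiftLeft 1 (Nat.shiftLeft w l)) 1)))) L

/-- the loop over the places of the words, from the top -/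
noncomputable def wloop (S X Z O : ℕ) (f : ℕ) :
    ℕ → ℕ → (ℕ → ℕ → ℕ → ℕ → Bool) → Bool :=
  Nat.rec (fun _ _ k => k 0 0 0 0) (fun _ ih t p k =>
    ih (Nat.succ t) (Nat.shiftRight (Nat.mul p X) S) (fun seen acc P _ =>
      (fun r => (fun B => (fun E =>
        k (Nat.add seen E) (Nat.add acc (Nat.mul B p)) (Nat.add P (Nat.mul E p)) E)
        (Nat.sub r B)) (Nat.land r seen)) (Nat.land (Nat.shiftRight Z t) O))) f

/-- the table lookup -/
noncomputable def sel (lam Z O full : ℕ) (tb : Tb) :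
    ℕ → ℕ → ℕ → ℕ → (ℕ → ℕ → Bool) → Bool :=
  Tb.rec (fun sl cl sh ch _ Q lo hi k =>
      k (Nat.add lo (Nat.mul Q (Nat.add (Nat.mul sl lam) cl)))
        (Nat.add hi (Nat.mul Q (Nat.add (Nat.mul sh lam) ch))))
    (fun _ _ il ir t Q lo hi k => (fun Q1 =>
      il (Nat.succ t) (Nat.sub Q Q1) lo hi (fun lo' hi' => ir (Nat.succ t) Q1 lo' hi' k))
      (Nat.land Q (Nat.mul (Nat.land (Nat.shiftRight Z t) O) full))) tb

/-- the check at one end `X / 2 ^ S` of the parameter interval; slots have `W = 2 S + 6` bits -/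
noncomputable def endck (S N k Z mg : ℕ) (ts tt : Tb) (sa ca sb cb X : ℕ) : Bool :=
  (fun W => (fun O => (fun lam => (fun full =>
    wloop S X Z O (Nat.succ N) 0 (Nat.shiftLeft 1 S) (fun seen acc P E =>
      (fun Q1 => (fun A => (fun O' => (fun G =>
        sel lam Z O full ts (Nat.succ N) Q1 A A (fun lo1 hi1 =>
        sel lam Z O full tt (Nat.succ N) (Nat.sub P Q1) lo1 hi1 (fun lo hi =>
        Nat.beq seen O && Nat.beq (Nat.land (Nat.sub
          (Nat.add G (Nat.add (Nat.shiftLeft hi W) (Nat.shiftLeft (Nat.add (Nat.mul sa lam) ca) S)))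
          (Nat.add (Nat.add lo (Nat.mul mg O'))
            (Nat.shiftLeft (Nat.shiftLeft (Nat.add (Nat.mul sb lam) cb) S) (Nat.mul W k)))) G) G)))
        (Nat.shiftLeft O' (Nat.sub W 1))) (Nat.add (Nat.shiftLeft O W) 1))
        (Nat.shiftLeft acc (Nat.succ S))) (Nat.land P (Nat.mul E full))))
    (Nat.sub (Nat.shiftLeft 1 W) 1))
    (Nat.div (Nat.shiftLeft X S) (Nat.sub (Nat.shiftLeft 1 S) X)))
    (ones W k)) (Nat.add (Nat.mul 2 S) 6)

/-- bounds on the entries of a table -/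
noncomputable def tbok (S : ℕ) (tb : Tb) : Bool :=
  Tb.rec (fun sl cl sh ch => Nat.ble sl 2 && Nat.ble sh 2 && Nat.ble cl (Nat.shiftLeft 3 S) &&
    Nat.ble ch (Nat.shiftLeft 3 S)) (fun _ _ a b => a && b) tb

/-- the chain check without the bounds on the tables -/
noncomputable def chain0 (S X1 X2 N k L w D : ℕ) (ts tt : Tb) (sa ca sb cb : ℕ) : Bool :=
  (fun Z => (fun mg =>
    Nat.ble X1 X2 && Nat.ble (Nat.mul 5 X2) (Nat.shiftLeft 3 S) &&
    Nat.ble (Nat.shiftLeft 1 S) (Nat.mul 2 X1) && Nat.ble mg (Nat.shiftLeft 1 (Nat.mul 2 S)) &&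
    endck S N k Z mg ts tt sa ca sb cb X1 && endck S N k Z mg ts tt sa ca sb cb X2)
    (Nat.add (Nat.shiftLeft (Nat.add (Nat.mul 5 N) 30) S)
      (Nat.mul 12 (Nat.mul (Nat.sub X2 X1) (Nat.sub X2 X1)))))
    (spread (Nat.add (Nat.mul 2 S) 6) w L 1 D)

noncomputable def chain (S X1 X2 N k L w D : ℕ) (ts tt : Tb) (sa ca sb cb : ℕ) : Bool :=
  tbok S ts && tbok S tt && tbok S (Tb.leaf sa ca sb cb) && chain0 S X1 X2 N k L w D ts tt sa ca sb cb

/-- the gaps are sorted and lie between `a` and `b`, with left ends at most `K` -/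
noncomputable def srt (K : ℕ) (G : Gt) : ℕ → ℕ → Bool :=
  Gt.rec (fun _ _ => true) (fun _ l h _ il ir a b =>
    Nat.ble a l && Nat.ble l h && Nat.ble h b && Nat.ble l K && il a l && ir h b) G

/-- the regions between the gaps and their negatives -/
noncomputable def mkT (u : ℕ) (G : Gt) : ℕ → ℕ → ℕ → Tb :=
  Gt.rec (fun lo s c => (fun s' c' => Tb.node
      (cond (Nat.beq lo 0) (Tb.leaf s' c' s c) (Tb.leaf 1 (Nat.add u lo) s c))
      (Tb.leaf s' c' 1 (Nat.sub u lo))) (Nat.sub 2 s) (Nat.sub (Nat.mul 2 u) c))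
    (fun _ l h _ il ir lo s c =>
      Tb.node (il lo 1 (Nat.sub (Nat.add u l) 1)) (ir (Nat.succ h) s c)) G

/-- the gaps, and the given last entry -/
noncomputable def mkS (u : ℕ) (G : Gt) : Tb → Tb :=
  Gt.rec (fun t => t) (fun _ l h _ il ir t =>
    Tb.node (il (Tb.leaf 1 (Nat.add u l) 1 (Nat.add u h))) (ir t)) G

/-- an integer below `2 ^ S * kap x` -/
def kfl (S X1 : ℕ) : ℕ :=
  Nat.div (Nat.shiftLeft (Nat.sub (Nat.mul 2 X1) (Nat.shiftLeft 1 S)) S) (Nat.sub (Nat.shiftLeft 1 S) X1)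

/-- the check of a trap outside `(- lo / 2 ^ S, lo / 2 ^ S)` together with the root -/
noncomputable def vck (S X1 X2 N k L w D lo : ℕ) (G : Gt) : Bool :=
  (fun u => srt (kfl S X1) G (Nat.succ lo) u && Nat.blt lo u &&
    chain0 S X1 X2 N k L w D (mkS u G (Tb.leaf 0 (Nat.succ (Nat.mul 2 u)) 1 (Nat.sub (Nat.add u lo) 1)))
      (mkT u G lo 2 0) 0 (Nat.mul 2 u) 2 0) (Nat.shiftLeft 1 S)

/-- the check of a trap -/
noncomputable def tck (S X1 X2 N k L w D : ℕ) (G : Gt) : Bool :=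
  (fun u => srt (kfl S X1) G 1 u &&
    chain0 S X1 X2 N k L w D (mkS u G (Tb.leaf 1 (Nat.succ u) 1 u)) (mkT u G 0 2 0) 1 u 2 0)
    (Nat.shiftLeft 1 S)

/-- the points of `[0, b / 2 ^ S]` outside the gaps `Q` reach a node outside the gaps `G` -/
noncomputable def qck (S X1 X2 N k L w D : ℕ) (G Q : Gt) (b : ℕ) : Bool :=
  (fun u => srt (kfl S X1) G 1 u && srt (Nat.mul 2 u) Q 0 (Nat.mul 2 u) && Nat.ble b (Nat.mul 2 u) &&
    chain0 S X1 X2 N k L w D (mkS u Q (Tb.leaf 1 (Nat.succ u) 1 u)) (mkT u G 0 2 0) 1 u 1 (Nat.add u b))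
    (Nat.shiftLeft 1 S)

/-- `b` bits of `c` from place `o` -/
def fld (c o b : ℕ) : ℕ := Nat.land (Nat.shiftRight c o) (Nat.sub (Nat.shiftLeft 1 b) 1)

noncomputable def decG (c b : ℕ) (f : ℕ) : ℕ → ℕ → Gt :=
  Nat.rec (fun _ _ => Gt.nil) (fun _ ih lo hi => cond (Nat.ble hi lo) Gt.nil
    ((fun m => Gt.node (ih lo m) (fld c (Nat.mul (Nat.mul 2 m) b) b)
      (fld c (Nat.mul (Nat.succ (Nat.mul 2 m)) b) b) (ih (Nat.succ m) hi))
      (Nat.shiftRight (Nat.add lo hi) 1))) f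

/-- a tree of gaps read from a number -/
noncomputable def gtOf (c : ℕ) : Gt := decG (Nat.shiftRight c 24) (fld c 0 8) 16 0 (fld c 8 16)

/-- the consecutive parameter intervals read from the list are checked and cover
`[a / 2 ^ 128, b / 2 ^ 128]` -/
noncomputable def vall (l : List ℕ) : ℕ → ℕ → Bool :=
  List.rec (fun a b => Nat.ble b a) (fun c _ ih a b =>
    (fun S => (fun X1 => (fun X2 =>
      Nat.ble S 128 && Nat.ble (Nat.shiftLeft X1 (Nat.sub 128 S)) a &&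
      vck S X1 X2 (fld c 8 8) (fld c 32 16) (fld c 16 8) (fld c 24 8) (Nat.shiftRight c (fld c 48 24))
        (fld c (Nat.add 72 (Nat.mul 2 S)) S) (gtOf (Nat.shiftRight c (Nat.add 72 (Nat.mul 3 S)))) &&
      ih (Nat.shiftLeft X2 (Nat.sub 128 S)) b)
      (fld c (Nat.add 72 S) S)) (fld c 72 S)) (fld c 0 8)) l

end Pool.Agent.KExp
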