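import Pool.Agent.MP_bd9604_nt.Inf.CDefs
import Pool.Agent.MP_bd9604_nt.Inf.Base

/-! The packed interval checker: the meaning of its data. -/

namespace Pool.Agent.KExp
open Finset

/-- the real number coded by `(s, c)` -/
noncomputable def pt (x : ℝ) (S s c : ℕ) : ℝ := ((s : ℝ) - 1) * (x / (1 - x)) + c / 2 ^ S - 1

def Tb.mem (x : ℝ) (S : ℕ) : Tb → ℝ → Prop
  | .leaf sl cl sh ch, z => pt x S sl cl ≤ z ∧ z ≤ pt x S sh ch
  | .node l r, z => l.mem x S z ∨ r.mem x S z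

def Gt.mem (S : ℕ) : Gt → ℝ → Prop
  | .nil, _ => False
  | .node L l h R, z => L.mem S z ∨ ((l : ℝ) / 2 ^ S ≤ z ∧ z ≤ (h : ℝ) / 2 ^ S) ∨ R.mem S z

/-- nodes outside the gaps -/
def Vs (x : ℝ) (S : ℕ) (G : Gt) (z : ℝ) : Prop := |z| ≤ kap x ∧ ¬ G.mem S |z|

/-- the leaf selected by the bits `b t, b (t + 1), ...` -/
def Tb.get (b : ℕ → Bool) : Tb → ℕ → ℕ × ℕ × ℕ × ℕ
  | .leaf sl cl sh ch, _ => (sl, cl, sh, ch)
  | .node l r, t => if b t then r.get b (t + 1) else l.get b (t + 1)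

/-- lower approximations of `2 ^ S * x ^ t` -/
def pwr (S X : ℕ) : ℕ → ℕ
  | 0 => 2 ^ S
  | t + 1 => pwr S X t * X / 2 ^ S

/-- the bits of the slot number `i` -/
def lbit (S Z i : ℕ) (t : ℕ) : Bool := Z.testBit ((2 * S + 6) * i + t)

/-- the length of the word coded by the bits `b`: the place of the last bit `1` up to `N` -/
def llen (N : ℕ) (b : ℕ → Bool) : ℕ := Nat.findGreatest (fun t => b t = true) N

/-- the table entry of a slot -/
def lent (N : ℕ) (ts tt : Tb) (b : ℕ → Bool) : ℕ × ℕ × ℕ × ℕ :=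
  (if llen N b = 0 then ts else tt).get b (N + 1)

/-- lower approximation of `2 ^ S * x / (1 - x)` -/
def lamv (S X : ℕ) : ℕ := X * 2 ^ S / (2 ^ S - X)

/-- the integer computed for the word `b 0, ..., b (n - 1)` and the end `(s, c)` -/
def lval (S X : ℕ) (b : ℕ → Bool) (n s c : ℕ) : ℕ :=
  (∑ t ∈ range n, (b t).toNat * pwr S X t) * 2 ^ (S + 1) + pwr S X n * (s * lamv S X + c)

/-- the lower ends: the slots, then the final point -/
def loV (S X N k Z : ℕ) (ts tt : Tb) (sb cb i : ℕ) : ℕ :=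
  if i < k then lval S X (lbit S Z i) (llen N (lbit S Z i)) (lent N ts tt (lbit S Z i)).1
    (lent N ts tt (lbit S Z i)).2.1
  else lval S X (fun _ => false) 0 sb cb

/-- the upper ends: the first point, then the slots -/
def hiV (S X N Z : ℕ) (ts tt : Tb) (sa ca : ℕ) : ℕ → ℕ
  | 0 => lval S X (fun _ => false) 0 sa ca
  | i + 1 => lval S X (lbit S Z i) (llen N (lbit S Z i)) (lent N ts tt (lbit S Z i)).2.2.1
    (lent N ts tt (lbit S Z i)).2.2.2

/-- the real number approximated by `lval / 4 ^ S` -/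
noncomputable def lreal (x : ℝ) (S : ℕ) (b : ℕ → Bool) (n s c : ℕ) : ℝ :=
  2 * ∑ t ∈ range n, ((b t).toNat : ℝ) * x ^ t + x ^ n * (s * (x / (1 - x)) + c / 2 ^ S)

end Pool.Agent.KExp
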