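import Pool.Agent.MP_bd9604_nt.Inf.Base

/-! The cluster of terminal nodes near `g (m + 1)` when `kap` is close to `R (m + 2)`.

Notation Y = X m x, y = - Y, D = R (m+2) - R (m+1) = - Y^2 (R (m+1) + R (m+2)) (R_eq, R_succ, X_succ), d = R (m+2) - kap.
uq_cluster: struct_pos with n = m + 2, t = 2 (|z| <= P m <= R m): z = P m * T Y u, UU 2 u. As Y < 1/2, 0 < z <= P m forces u 0 = 1, u 1 = -1
(T_lt_of_first or direct bounds: u 0 = -1 gives T < 0; u 0 = u 1 = 1 gives T >= 1 + Y - Y^2 / (1 - Y) > 1). So u is alternating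
(z = R (m+1) = P m / (1 + Y)) or alternating up to place k and then (-1)^k (+ - - +)^oo, where P m * T Y (+ - - +)^oo = R (m+2);
then z = R (m+1) + y^k D, and +- R (m+2) is reached from z (rch_code) so it is unique and kap < R (m+2) (Uq.out).
An alternative is an induction using blk' (z = P m + Y * (- z'), z' - R (m+1) = (z - R (m+1)) / y).
cluster_eq: v = P (m+1) - X (m+1) * z1 and the + child of v reaches - z1 (blk). With kap - v = X (m+2) * (kap + t), the child
(- v - 1) / x = - 1 / (1 - x) + (kap - v) / x of - v (Term.neg) reaches (t - 1) / x by rch_scale with r = 2^(m+2) (kap_add_one), and then - z2 by blk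
since t = P m - Y * z2. Apply uq_cluster twice: z1 = R (m+1) + D A, z2 = R (m+1) + D B, A, B zero or powers of y; then
d (1 - Y^4) = D (y^2 A - y^5 B). If A = B = 0, d = 0. Else d > 0, D < 0; take absolute values.
root_chain: L j = P (m+1) + X (m+1) * (- L (j+1)) for L j = R (m+2) - (-1)^j d / Y^(2 j), L 0 = kap; blk', Rch.neg.
loop_top: kap = P n + X n * (- kap), blk, loop_inft.
loop_four: L = R (m+2) - d / Y^4 = L 2 is a node; kap - L = Y^(i-2) (kap + t) with t = R (m+1) + d - Y^2 (R (m+1) - R (m+2)) =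
R (m+1) + y^2 (D + d / Y^2); as above a child of - L reaches (t - 1) / x (rch_scale with x^r = Y^(i-2)), then by blk (level m)
- (R (m+1) + y (D + d / Y^2)), by blk' (level m) R (m+1) + D + d / Y^2 = L 1, by blk' (level m + 1) - L 2. So SR x (- L) (- L):
loop_inft; root_chain gives the claim. This also holds for m = 0 (P 0 = 1, X 0 = x). -/

namespace Pool.Agent.KExp

lemma D_PartC1 {x : ℝ} (h0 : 0 < x) (h1 : x < 1) (m : ℕ) :
    R (m + 1) x - R (m + 2) x = X m x ^ 2 * (R (m + 1) x + R (m + 2) x) := by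
  have a := R_eq h0 h1 (m + 1)
  have b : R (m + 2) x = _ := R_succ h0 h1 (m + 1)
  rw [X_succ] at a b
  linarith

lemma low_PartC1 {x z : ℝ} (h0 : 1 / 2 ≤ x) (h1 : x < 1) {m : ℕ} (hn : R (m + 3) x ≤ kap x)
    (hu : Uq x z) (h2 : 0 < z) (h3 : z < R (m + 1) x) : kap x < R (m + 2) x ∧
      ∃ k : ℕ, z = R (m + 1) x + (- X m x) ^ k * (R (m + 2) x - R (m + 1) x) := by
  have hx : 0 < x := by linarith
  obtain ⟨a, y', hu', hle, hor, e⟩ := escape hx h1 (m + 1) (R (m + 2) x) hu h3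
  have hX := X_pos hx (m + 1)
  have hR2 := R_pos hx h1 (m + 2)
  have b : R (m + 2) x = P (m + 1) x - X (m + 1) x * R (m + 2) x := R_succ hx h1 (m + 1)
  have hlo : -R (m + 2) x ≤ y' := by
    rcases hor with ⟨-, e⟩ | e
    · linarith only [h2, hR2, e]
    · by_contra hc
      push Not at hc
      nlinarith only [hX, b, e, hc]
  have hs : P (m + 1) x * ∑ i ∈ Finset.range a, X (m + 1) x ^ i =
      R (m + 1) x * (1 - X (m + 1) x ^ a) := by
    have := R_eq hx h1 (m + 1)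
    rw [← mul_neg_geom_sum]
    linear_combination (-∑ i ∈ Finset.range a, X (m + 1) x ^ i) * this
  have ho := hu'.out h0 h1
  have hD := D_PartC1 hx h1 m
  rw [hs, X_succ] at e
  rcases top_uq h0 h1 (n := m + 2) hn hu' (abs_le.2 ⟨hlo, hle⟩) with h | h
  · rw [h, abs_of_pos hR2] at ho
    refine ⟨ho, 2 * a, ?_⟩
    rw [e, h, pow_mul, neg_sq]; ring
  · rw [h, abs_neg, abs_of_pos hR2] at ho
    refine ⟨ho, ?_⟩
    cases a with
    | zero => exfalso; rw [h] at e; simp at e; linarith only [h2, hR2, e]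
    | succ a =>
      refine ⟨2 * a, ?_⟩
      rw [e, h, pow_mul, neg_sq]
      linear_combination (X m x ^ 2) ^ a * hD

theorem uq_cluster {x z : ℝ} (h0 : 1 / 2 ≤ x) (h1 : x < 1) {m : ℕ} (hn : R (m + 3) x ≤ kap x)
    (hY : X m x < 1 / 2) (hu : Uq x z) (h2 : 0 < z) (h3 : z ≤ P m x) :
    z = R (m + 1) x ∨ (kap x < R (m + 2) x ∧
      ∃ k : ℕ, z = R (m + 1) x + (- X m x) ^ k * (R (m + 2) x - R (m + 1) x)) := by
  have _ := hY
  have hx : 0 < x := by linarith only [h0]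
  rcases lt_trichotomy z (R (m + 1) x) with h | h | h
  · exact Or.inr (low_PartC1 h0 h1 hn hu h2 h)
  · exact Or.inl h
  · have hX := X_pos hx m
    have b := R_succ hx h1 m
    obtain ⟨w, hw⟩ : ∃ w, z = P m x - X m x * w := ⟨(P m x - z) / X m x, by field_simp; ring⟩
    have u1 : Uq x w := by
      have := ((blk' hx m (s := 1) (Or.inl rfl) (y := z) (y' := -w)
        (by rw [hw]; push_cast; ring)).uq hx h1 hu).neg
      rwa [neg_neg] at this
    have w0 : 0 ≤ w := by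
      by_contra hc
      push Not at hc
      nlinarith only [h3, hX, hw, hc]
    have w1 : w < R (m + 1) x := by
      by_contra hc
      push Not at hc
      nlinarith only [h, hX, b, hw, hc]
    have ho := u1.out h0 h1
    rw [abs_of_nonneg w0] at ho
    obtain ⟨h4, k, hk⟩ := low_PartC1 h0 h1 hn u1
      (by linarith only [R_pos hx h1 (m + 3), hn, ho]) w1
    refine Or.inr ⟨h4, k + 1, ?_⟩
    rw [hw, hk]
    linear_combination -b

lemma abs_PartC1 {Y E f s : ℝ} (hY : 0 < Y) (hE : 0 < E) (hf : 0 < f) {a : ℕ}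
    (hs : s = 1 ∨ s = -1) (e : E = s * ((-Y) ^ a * f)) : E = Y ^ a * f := by
  rw [← abs_of_pos hE, e, abs_mul, abs_mul, abs_pow, abs_neg, abs_of_pos hY, abs_of_pos hf]
  rcases hs with rfl | rfl <;> simp

lemma one_PartC1 {Y : ℝ} (hY : 0 < Y) (h1 : Y < 1) {c : ℕ} (hc : 1 ≤ c) : 0 < 1 - (-Y) ^ c := by
  have : |(-Y) ^ c| < 1 := by
    rw [abs_pow, abs_neg, abs_of_pos hY]
    exact pow_lt_one₀ hY.le h1 (by omega)
  linarith only [(abs_lt.1 this).2]

lemma two_PartC1 {Y E : ℝ} (hY : 0 < Y) (h1 : Y < 1) (hE : 0 < E) {a b : ℕ}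
    (e : E = (-Y) ^ a - (-Y) ^ b) :
    ∃ (i : ℕ) (f : ℝ), (f = 1 ∨ ∃ c : ℕ, 1 ≤ c ∧ f = 1 - (-Y) ^ c) ∧ E = Y ^ i * f := by
  rcases lt_trichotomy a b with h | h | h
  · obtain ⟨c, rfl⟩ := Nat.exists_eq_add_of_lt h
    exact ⟨a, _, Or.inr ⟨c + 1, by omega, rfl⟩, abs_PartC1 hY hE (one_PartC1 hY h1 (by omega))
      (Or.inl rfl) (by rw [e]; ring)⟩
  · rw [h, sub_self] at e
    exact absurd e hE.ne'
  · obtain ⟨c, rfl⟩ := Nat.exists_eq_add_of_lt h
    exact ⟨b, _, Or.inr ⟨c + 1, by omega, rfl⟩, abs_PartC1 hY hE (one_PartC1 hY h1 (by omega))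
      (Or.inr rfl) (by rw [e]; ring)⟩

theorem cluster_eq {x v : ℝ} (h0 : 1 / 2 ≤ x) (h1 : x < 1) {m : ℕ} (hn : R (m + 3) x ≤ kap x)
    (hY : X m x < 1 / 2) (ht : Term x v)
    (a1 : 0 < (P (m + 1) x - v) / X (m + 1) x) (a2 : (P (m + 1) x - v) / X (m + 1) x ≤ P m x)
    (b1 : 0 < (P m x - ((kap x - v) / X (m + 2) x - kap x)) / X m x)
    (b2 : (P m x - ((kap x - v) / X (m + 2) x - kap x)) / X m x ≤ P m x) :
    kap x = R (m + 2) x ∨ (kap x < R (m + 2) x ∧ ∃ (i : ℕ) (f : ℝ),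
      (f = 1 ∨ ∃ c : ℕ, 1 ≤ c ∧ f = 1 - (- X m x) ^ c) ∧
      (R (m + 2) x - kap x) * (1 - X m x ^ 4) = (R (m + 1) x - R (m + 2) x) * X m x ^ i * f) := by
  have hx : 0 < x := by linarith only [h0]
  have hX := X_pos hx m
  have hX1 := X_pos hx (m + 1)
  have hX2 := X_pos hx (m + 2)
  have hXl := X_lt_one hx h1 m
  set z1 := (P (m + 1) x - v) / X (m + 1) x with hz1
  set t := (kap x - v) / X (m + 2) x - kap x with hdt
  set z2 := (P m x - t) / X m x with hz2
  have e1 : v = ((1 : ℤ) : ℝ) * P (m + 1) x + X (m + 1) x * (-z1) := by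
    rw [hz1]; push_cast; field_simp; ring
  have e2 : t = ((1 : ℤ) : ℝ) * P m x + X m x * (-z2) := by
    rw [hz2]; push_cast; field_simp; ring
  have e3 : kap x - v = X (m + 2) x * (kap x + t) := by rw [hdt]; field_simp; ring
  have u1 : Uq x z1 := by
    have := blk hx (m + 1) 1 (Or.inl rfl) (-z1)
    rw [← e1] at this
    simpa using (this.uq hx h1 (by simpa using ht.1)).neg
  have u2 : Uq x z2 := by
    have h2 : Uq x ((-kap x + (kap x - v) - 1) / x) := by
      have := ht.neg.1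
      rwa [show -v = -kap x + (kap x - v) by ring] at this
    have h3 := uq_scale hx h1 (2 ^ (m + 2)) h2
    have h4 : -kap x + (kap x - v) / x ^ 2 ^ (m + 2) = t := by rw [hdt]; unfold X; ring
    rw [h4] at h3
    have := blk hx m 1 (Or.inl rfl) (-z2)
    rw [← e2] at this
    simpa using (this.uq hx h1 (by simpa using h3)).neg
  have c1 := uq_cluster h0 h1 hn hY u1 a1 a2
  have c2 := uq_cluster h0 h1 hn hY u2 b1 b2
  have r1 := R_succ hx h1 m
  have r2 := R_eq hx h1 (m + 1)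
  have r3 : R (m + 2) x = P (m + 1) x - X (m + 1) x * R (m + 2) x := R_succ hx h1 (m + 1)
  have r4 : X (m + 2) x = X m x ^ 4 := by
    rw [show m + 2 = m + 1 + 1 from rfl, X_succ, X_succ]; ring
  have hlt : R (m + 2) x < R (m + 1) x := R_succ_lt hx h1 (m + 1)
  rw [r4] at e3
  rw [X_succ] at e1 r2 r3
  push_cast at e1 e2
  have h4 : 0 < 1 - X m x ^ 4 := by linarith only [pow_lt_one₀ hX.le hXl (n := 4) (by norm_num)]
  have key : (R (m + 2) x - kap x) * (1 - X m x ^ 4) =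
      X m x ^ 2 * (z1 - R (m + 1) x) + X m x ^ 5 * (z2 - R (m + 1) x) := by
    linear_combination -e3 - e1 - X m x ^ 4 * e2 + (1 - X m x ^ 2) * r3 + X m x ^ 4 * r1 -
      X m x ^ 2 * r2 + X m x ^ 2 * r2 + X m x ^ 2 * r2
  have fin : ∀ E : ℝ, kap x < R (m + 2) x →
      (R (m + 2) x - kap x) * (1 - X m x ^ 4) = (R (m + 1) x - R (m + 2) x) * E → 0 < E := by
    intro E h5 h6
    have := mul_pos (sub_pos.2 h5) h4
    rw [h6] at this
    exact (mul_pos_iff_of_pos_left (sub_pos.2 hlt)).1 this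
  rcases c1 with c1 | ⟨h5, k, c1⟩ <;> rcases c2 with c2 | ⟨h6, l, c2⟩
  · left
    rw [c1, c2, sub_self, mul_zero, mul_zero, add_zero, mul_eq_zero] at key
    rcases key with key | key
    · linarith only [key]
    · exact absurd key h4.ne'
  · have h7 : (R (m + 2) x - kap x) * (1 - X m x ^ 4) =
        (R (m + 1) x - R (m + 2) x) * (1 * ((-X m x) ^ (l + 5) * 1)) := by
      rw [key, c1, c2]; ring
    refine Or.inr ⟨h6, l + 5, 1, Or.inl rfl, ?_⟩
    rw [h7, abs_PartC1 hX (fin _ h6 h7) one_pos (Or.inl rfl) rfl, mul_assoc]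
  · have h7 : (R (m + 2) x - kap x) * (1 - X m x ^ 4) =
        (R (m + 1) x - R (m + 2) x) * (-1 * ((-X m x) ^ (k + 2) * 1)) := by
      rw [key, c1, c2]; ring
    refine Or.inr ⟨h5, k + 2, 1, Or.inl rfl, ?_⟩
    rw [h7, abs_PartC1 hX (fin _ h5 h7) one_pos (Or.inr rfl) rfl, mul_assoc]
  · have h7 : (R (m + 2) x - kap x) * (1 - X m x ^ 4) =
        (R (m + 1) x - R (m + 2) x) * ((-X m x) ^ (l + 5) - (-X m x) ^ (k + 2)) := by
      rw [key, c1, c2]; ring
    obtain ⟨i, f, h8, h9⟩ := two_PartC1 hX hXl (fin _ h5 h7) rfl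
    exact Or.inr ⟨h5, i, f, h8, by rw [h7, h9, mul_assoc]⟩

lemma step_PartC1 {x : ℝ} (h0 : 0 < x) (h1 : x < 1) (m : ℕ) (c : ℝ) :
    Rch x (R (m + 2) x + c) (-(R (m + 2) x - c / X m x ^ 2)) := by
  have hX := X_pos h0 m
  have r3 : R (m + 2) x = P (m + 1) x - X (m + 1) x * R (m + 2) x := R_succ h0 h1 (m + 1)
  refine blk' h0 (m + 1) (s := 1) (Or.inl rfl) ?_
  rw [X_succ] at r3 ⊢
  have : X m x ^ 2 * (c / X m x ^ 2) = c := by field_simp
  push_cast
  linear_combination r3 - this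

theorem root_chain {x : ℝ} (h0 : 0 < x) (h1 : x < 1) (m j : ℕ)
    (h : Inft x (R (m + 2) x - (-1) ^ j * (R (m + 2) x - kap x) / X m x ^ (2 * j))) :
    Inft x (kap x) := by
  have hX := X_pos h0 m
  induction j with
  | zero => simpa using h
  | succ j ih =>
    apply ih
    have := step_PartC1 h0 h1 m (-((-1) ^ j * (R (m + 2) x - kap x) / X m x ^ (2 * j)))
    rw [← sub_eq_add_neg] at this
    refine this.inft h0 h1 (Inft.neg ?_)
    convert h using 2
    field_simp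
    ring

theorem loop_top {x : ℝ} (h0 : 1 / 2 ≤ x) (h1 : x < 1) {n : ℕ} (h : kap x = R (n + 1) x) :
    Inft x (kap x) := by
  have hx : 0 < x := by linarith
  have hp : 0 < kap x := h ▸ R_pos hx h1 (n + 1)
  refine loop_inft h0 h1 (abs_of_pos hp).le (Or.inr ⟨1, Or.inl rfl, ?_⟩)
  have r := R_succ hx h1 n
  rw [← h] at r
  have := blk hx n 1 (Or.inl rfl) (-kap x)
  rwa [show ((1 : ℤ) : ℝ) * P n x + X n x * -kap x = kap x by push_cast; linarith only [r]] at this

theorem loop_four {x : ℝ} (h0 : 1 / 2 ≤ x) (h1 : x < 1) {m i : ℕ} (hi : 2 ≤ i)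
    (h : R (m + 2) x - kap x = (R (m + 1) x - R (m + 2) x) * X m x ^ i)
    (hL : - kap x ≤ R (m + 2) x - (R (m + 2) x - kap x) / X m x ^ 4) : Inft x (kap x) := by
  have hx : 0 < x := by linarith only [h0]
  obtain ⟨j, rfl⟩ := Nat.exists_eq_add_of_le hi
  have hX := X_pos hx m
  have hXl := X_lt_one hx h1 m
  have hlt : R (m + 2) x < R (m + 1) x := R_succ_lt hx h1 (m + 1)
  have hD := D_PartC1 hx h1 m
  have r1 := R_succ hx h1 m
  obtain ⟨c, hc⟩ : ∃ c, R (m + 2) x - kap x = X m x ^ 4 * c :=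
    ⟨(R (m + 2) x - kap x) / X m x ^ 4, by field_simp⟩
  have hc1 : (R (m + 2) x - kap x) / X m x ^ 4 = c := by rw [hc]; field_simp
  have hc2 : c = X m x ^ j * (R (m + 1) x + R (m + 2) x) := by
    apply mul_left_cancel₀ (pow_pos hX 4).ne'
    rw [← hc, h, hD]; ring
  have hc0 : 0 < c := by
    rw [hc2]
    exact mul_pos (pow_pos hX j) (add_pos (R_pos hx h1 _) (R_pos hx h1 _))
  have h4 : X m x ^ 4 < 1 := pow_lt_one₀ hX.le hXl (by norm_num)
  rw [hc1] at hL
  refine root_chain hx h1 m 2 ?_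
  rw [show R (m + 2) x - (-1) ^ 2 * (R (m + 2) x - kap x) / X m x ^ (2 * 2) = R (m + 2) x - c by
    rw [← hc1]; norm_num]
  refine inft_neg.1 (loop_inft h0 h1 ?_ (Or.inl ⟨1, Or.inl rfl, ?_⟩))
  · rw [abs_neg]
    exact abs_le.2 ⟨hL, by nlinarith only [hc, hc0, h4]⟩
  have hk := kap_add_one h1
  have s1 := rch_scale hx h1 (2 ^ m * j) ((kap x - (R (m + 2) x - c)) / x)
  have s2 := blk hx m 1 (Or.inl rfl)
    (-(R (m + 1) x - X m x * (R (m + 2) x - R (m + 1) x + X m x ^ 2 * c)))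
  have s3 : Rch x (-(R (m + 1) x - X m x * (R (m + 2) x - R (m + 1) x + X m x ^ 2 * c)))
      (R (m + 2) x + X m x ^ 2 * c) :=
    blk' hx m (s := -1) (Or.inr rfl) (by push_cast; linear_combination -r1)
  have s4 := step_PartC1 hx h1 m (X m x ^ 2 * c)
  rw [mul_div_cancel_left₀ c (pow_pos hX 2).ne'] at s4
  have e1 : (-(R (m + 2) x - c) - ((1 : ℤ) : ℝ)) / x =
      -(1 / (1 - x)) + (kap x - (R (m + 2) x - c)) / x := by
    rw [div_eq_iff hx.ne', add_mul, div_mul_cancel₀ _ hx.ne']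
    push_cast
    linarith only [hk]
  have e2 : -(1 / (1 - x)) + (kap x - (R (m + 2) x - c)) / x / x ^ (2 ^ m * j) =
      (((1 : ℤ) : ℝ) * P m x + X m x *
        -(R (m + 1) x - X m x * (R (m + 2) x - R (m + 1) x + X m x ^ 2 * c)) - ((1 : ℤ) : ℝ)) / x := by
    have e3 : kap x - (R (m + 2) x - c) =
        X m x ^ j * ((R (m + 1) x + R (m + 2) x) * (1 - X m x ^ 4)) := by
      linear_combination -hc + (1 - X m x ^ 4) * hc2
    have e4 : x ^ (2 ^ m * j) = X m x ^ j := by rw [pow_mul]; rfl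
    rw [e4, div_right_comm, e3, mul_div_cancel_left₀ _ (pow_pos hX j).ne', eq_div_iff hx.ne',
      add_mul, div_mul_cancel₀ _ hx.ne']
    push_cast
    linear_combination hk + hc + r1 + X m x ^ 2 * hD
  rw [e1]
  rw [e2] at s1
  exact s1.trans (s2.trans (s3.trans s4))

end Pool.Agent.KExp
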