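import Pool.Agent.MP_bd9604_nt.Inf.Base

attribute [-instance] AddQuantale.instAddLeftMono NumberField.to_charZero
  AddQuantale.instAddRightMono IdemSemiring.toCanonicallyOrderedAdd Quantale.instMulRightMono
  DivisionRing.toRing Group.IsPerfect.subsingleton_of_isMulCommutative CommRing.toRing
  IdemSemiring.toSemiring NormedRing.toRing AddCommGroupWithOne.toAddGroupWithOne RKHS.instFunLike
  SeminormedRing.toRing

/-! The bases just above the second level: the equation of a node.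

Here 0.5698 <= x <= 0.5699, kap < R 2 < kap + 0.0001, R 1 = 1 / (1 + x), R 2 = (1 - x) / (1 + x^2), kap = (2 x - 1) / (1 - x), D = R 2 - R 1,
B = kap + R 1 = 2 x^2 / (1 - x^2), y = - x; kap is about 0.3247, B about 0.9618, - x D about 0.1780.
near_two: z = P 1 + X 1 * (- z1) with z1 - R 2 = - (z - R 2) / x^2 (R_succ, P 1 = 1 - x, X 1 = x^2); blk gives SR x z (- z1). Iterate (Rch.neg): the errors
e (- 1 / x^2)^j; the negative ones with j >= 1 start below 0.0049 / x^4 < 0.05 in size and grow by 1 / x^4 < 10.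
exit_lemma: z 0 = z, z (k+1) = (1 - z k) / x, z k - R 1 = (z - R 1) / y^k, Rch x z (+- z k). If z = R 1 take f = 0. Else |z k - R 1| is unbounded; if
R 2 + 0.0049 < z k <= 1 + x kap then - kap <= z (k+1) <= 1 + x kap; so there is a first k with - kap <= z k <= R 2 + 0.0049. If | |z k| - R 2 | <= 0.0049
then z k = R 2 (E = 1; - R 2 < - kap), or near_two gives a node in [R 2 - 0.05, R 2 - 0.005], but nd x phi < 0.25 for phi <= 1/10. Else |z k| < kap and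
z k = +- nd x phi; (nd - R 1) / D = 1 + x^2 - x^2 phi, (- nd - R 1) / D = 1 / x^2 - x^2 + x^2 phi.
node_step: v > R 2 - 0.0049 is excluded by near_two (v <= kap < R 2). For w = v and w = - v: kap + w > 0; choose r with 1.3 x < (kap + w) / x^r <= 1.3, put
kap + t = (kap + w) / x^r, z = (1 - t) / x; the child (w - 1) / x = - 1 / (1 - x) + (kap + w) / x reaches (t - 1) / x = - z (rch_scale, kap_add_one), so SR x w (- z);
- kap <= z <= 1 + x kap; exit_lemma gives z = R 1 + D f, t = R 1 - x D f. The bounds for r: kap + v in [0.32, 0.65], kap - v in [0.0048, 0.33] (1.3 x^10 < 0.0047).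
node_eq: add the two equations, 2 kap = ..., and clear denominators.
E_ind: if kap had finitely many expansions, fin_ind shows that every node v with finitely many expansions has |v| = nd x phi with Phi phi
(node_step for |v|, encard_abs, SR.lt, node_eq, hcl); but near_two applied to kap gives such a node above R 2 - 0.05.
E_term: exists_term, Term.sr_uq and Uq.out give the hypothesis of node_step with Phi = False; node_eq with r = 4, r' = 1 reads
(1 + y) (y^7 f - y^4 f') = (1 + y) (1 + 2 y + y^2 + y^3) (1 - y)^2 (1 + y^2). -/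

namespace Pool.Agent.KExp

noncomputable def nd (x φ : ℝ) : ℝ := -kap x + x * (kap x + R 1 x - x * (R 2 x - R 1 x) * φ)

def FF (x : ℝ) (Φ : ℝ → Prop) (f : ℝ) : Prop :=
  ∃ t E : ℝ, (t = 0 ∨ ∃ m : ℕ, t = (-x) ^ m) ∧
    (E = 1 ∨ ∃ φ, Φ φ ∧ (E = 1 + x ^ 2 - x ^ 2 * φ ∨ E = 1 / x ^ 2 - x ^ 2 + x ^ 2 * φ)) ∧ f = t * E

/-- the equation of a node -/
def NE (y : ℝ) (r r' : ℕ) (f f' : ℝ) : Prop :=
  (1 + y) * y ^ 3 * ((-y) ^ r * f + (-y) ^ r' * f') =
    (1 + y) * (y ^ 2 - 1 + ((-y) ^ r + (-y) ^ r')) +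
      (2 - ((-y) ^ r + (-y) ^ r')) * (1 - y) * (1 + 2 * y + y ^ 2 + y ^ 3)

section
variable {x : ℝ} (xa : 0.5698 ≤ x) (xb : x ≤ 0.5699) (hk : kap x < R 2 x) (hk' : R 2 x < kap x + 0.0001)
include xa xb

lemma eqs_PartE1 : (1 - x) * kap x = 2 * x - 1 ∧ (1 + x) * R 1 x = 1 ∧
    (1 + x ^ 2) * R 2 x = 1 - x := by
  have h0 : 0 < x := by linarith only [xa]
  have h1 : x < 1 := by linarith only [xb, h0]
  refine ⟨kap_mul h1, ?_, ?_⟩
  · have := R_succ h0 h1 0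
    simp only [X_zero, P_zero, zero_add] at this
    linarith only [this]
  · have := R_succ h0 h1 1
    have e1 : P 1 x = 1 - x := by rw [P_succ]; simp
    have e2 : X 1 x = x ^ 2 := by rw [X_succ]; simp
    rw [e1, e2] at this
    norm_num at this
    linarith only [this]

lemma num_PartE1 : (0.3245 ≤ kap x ∧ kap x ≤ 0.3251) ∧ (0.6369 ≤ R 1 x ∧ R 1 x ≤ 0.6371) ∧
    (0.3246 ≤ R 2 x ∧ R 2 x ≤ 0.3248) ∧ (0.3246 ≤ x ^ 2 ∧ x ^ 2 ≤ 0.3248) := by
  obtain ⟨e1, e2, e3⟩ := eqs_PartE1 xa xb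
  have s1 : 0.32467 ≤ x ^ 2 := by nlinarith only [xa]
  have s2 : x ^ 2 ≤ 0.32479 := by nlinarith only [xa, xb]
  refine ⟨⟨?_, ?_⟩, ⟨?_, ?_⟩, ⟨?_, ?_⟩, by linarith only [s1], by linarith only [s2]⟩
  · by_contra h; push Not at h; nlinarith only [xa, xb, e1, h]
  · by_contra h; push Not at h; nlinarith only [xb, e1, h]
  · by_contra h; push Not at h; nlinarith only [xa, xb, e2, h]
  · by_contra h; push Not at h; nlinarith only [xa, e2, h]
  · by_contra h; push Not at h; nlinarith only [xb, e3, s2, h]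
  · by_contra h; push Not at h; nlinarith only [xa, e3, h]

lemma q_PartE1 : 0.1778 ≤ -(x * (R 2 x - R 1 x)) ∧ -(x * (R 2 x - R 1 x)) ≤ 0.1781 := by
  obtain ⟨-, ⟨a, b⟩, ⟨c, d⟩, -⟩ := num_PartE1 xa xb
  constructor <;> nlinarith only [xa, a, d, xb, b, c]

lemma nd_PartE1 {φ : ℝ} (h : φ ≤ 1 / 10) : nd x φ ≤ 0.25 := by
  obtain ⟨⟨k1, k2⟩, ⟨a, b⟩, -, -⟩ := num_PartE1 xa xb
  obtain ⟨q1, q2⟩ := q_PartE1 xa xb
  unfold nd
  generalize x * (R 2 x - R 1 x) = q at q1 q2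
  have h1 : -q * φ ≤ 0.0179 := by nlinarith only [h, q1, q2]
  have h2 : kap x + R 1 x - q * φ ≤ 0.99 := by linarith only [k2, b, h1]
  nlinarith only [xa, xb, k1, b, h1]

lemma step_PartE1 (e : ℝ) : SR x (R 2 x + e) (-(R 2 x - e / x ^ 2)) := by
  have h0 : 0 < x := by linarith only [xa]
  obtain ⟨-, -, e3⟩ := eqs_PartE1 xa xb
  refine ⟨1, Or.inl rfl, ?_⟩
  have := blk h0 1 1 (Or.inl rfl) (-(R 2 x - e / x ^ 2))
  have e1 : P 1 x = 1 - x := by rw [P_succ]; simp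
  have e2 : X 1 x = x ^ 2 := by rw [X_succ]; simp
  rw [e1, e2] at this
  have e4 : x ^ 2 * -(R 2 x - e / x ^ 2) = e - x ^ 2 * R 2 x := by field_simp; ring
  rw [e4] at this
  convert this using 2
  push_cast
  linarith only [e3]

lemma step2_PartE1 (d : ℝ) : SR x (R 2 x - d) (R 2 x - d / x ^ 2 / x ^ 2) := by
  have h0 : 0 < x := by linarith only [xa]
  have a := step_PartE1 xa xb (-d)
  have b := (step_PartE1 xa xb (d / x ^ 2)).neg
  rw [neg_neg] at b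
  rw [neg_div, sub_neg_eq_add, ← sub_eq_add_neg] at a
  exact a.trans_rch (b.rch h0)

lemma div4_PartE1 {d : ℝ} (hd : 0 < d) : 2 * d ≤ d / x ^ 2 / x ^ 2 ∧ d / x ^ 2 / x ^ 2 ≤ 10 * d := by
  obtain ⟨-, -, -, s1, s2⟩ := num_PartE1 xa xb
  have hp : 0 < x ^ 2 := by linarith only [s1]
  have t1 : 0.105 ≤ x ^ 2 * x ^ 2 := by nlinarith only [s1]
  have t2 : x ^ 2 * x ^ 2 ≤ 0.11 := by nlinarith only [s2]
  rw [div_div, le_div_iff₀ (by linarith only [t1]), div_le_iff₀ (by linarith only [t1])]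
  constructor <;> nlinarith only [hd, t2, t1]

lemma grow_PartE1 {d : ℝ} (h1 : 0 < d) (h2 : d ≤ 0.05) :
    ∃ d', 0.005 ≤ d' ∧ d' ≤ 0.05 ∧ Rch x (R 2 x - d) (R 2 x - d') := by
  have h0 : 0 < x := by linarith only [xa]
  obtain ⟨n, hn⟩ := pow_unbounded_of_one_lt (0.005 / d) (show (1 : ℝ) < 2 by norm_num)
  rw [div_lt_iff₀ h1] at hn
  induction n generalizing d with
  | zero => exact ⟨d, by linarith only [hn], h2, Rch.refl _ _⟩
  | succ n ih =>
    by_cases h : 0.005 ≤ d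
    · exact ⟨d, h, h2, Rch.refl _ _⟩
    · push Not at h
      obtain ⟨a, b⟩ := div4_PartE1 xa xb h1
      have hp : (0 : ℝ) < 2 ^ n := by positivity
      obtain ⟨d', c1, c2, c3⟩ := ih (d := d / x ^ 2 / x ^ 2) (by linarith only [h1, a]) (by linarith only [h, b])
        (by rw [pow_succ] at hn; nlinarith only [h1, hn, a])
      exact ⟨d', c1, c2, ((step2_PartE1 xa xb d).rch h0).trans c3⟩

theorem near_two {z : ℝ} (h1 : z ≠ R 2 x) (h2 : |z - R 2 x| ≤ 0.0049) :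
    ∃ z', SR x z z' ∧ R 2 x - 0.05 ≤ |z'| ∧ |z'| ≤ R 2 x - 0.005 := by
  obtain ⟨-, -, ⟨r1, r2⟩, s1, s2⟩ := num_PartE1 xa xb
  obtain ⟨h3, h4⟩ := abs_le.1 h2
  have hp : 0 < x ^ 2 := by linarith only [s1]
  rcases lt_or_gt_of_ne h1 with h | h
  · have hd : 0 < R 2 x - z := by linarith only [h]
    obtain ⟨a, b⟩ := div4_PartE1 xa xb hd
    obtain ⟨d', c1, c2, c3⟩ := grow_PartE1 xa xb (d := (R 2 x - z) / x ^ 2 / x ^ 2)
      (by linarith only [h, a]) (by linarith only [h3, b])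
    have c4 := step2_PartE1 xa xb (R 2 x - z)
    rw [sub_sub_cancel] at c4
    refine ⟨_, c4.trans_rch c3, ?_⟩
    rw [abs_of_nonneg (by linarith only [r1, c2])]
    constructor <;> linarith only [c2, c1]
  · have hd : 0 < z - R 2 x := by linarith only [h]
    obtain ⟨d', c1, c2, c3⟩ := grow_PartE1 xa xb (d := (z - R 2 x) / x ^ 2)
      (by positivity) (by rw [div_le_iff₀ hp]; linarith only [s1, h4])
    have c4 := step_PartE1 xa xb (z - R 2 x)
    rw [add_sub_cancel] at c4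
    refine ⟨_, c4.trans_rch c3.neg, ?_⟩
    rw [abs_neg, abs_of_nonneg (by linarith only [r1, c2])]
    constructor <;> linarith only [c2, c1]

theorem node_eq {v f f' : ℝ} {r r' : ℕ}
    (h1 : kap x - v = x ^ r * (kap x + R 1 x - x * (R 2 x - R 1 x) * f))
    (h2 : kap x + v = x ^ r' * (kap x + R 1 x - x * (R 2 x - R 1 x) * f')) : NE (-x) r r' f f' := by
  obtain ⟨e1, e2, e3⟩ := eqs_PartE1 xa xb
  unfold NE
  rw [neg_neg]
  generalize x ^ r = a at h1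
  generalize x ^ r' = b at h2
  generalize kap x = k at *
  generalize R 1 x = p at *
  generalize R 2 x = q at *
  have eK : (1 - x) * (1 + x) * (1 + x ^ 2) * k = (1 + x) * (1 + x ^ 2) * (2 * x - 1) := by
    linear_combination (1 + x) * (1 + x ^ 2) * e1
  have eB : (1 - x) * (1 + x) * (1 + x ^ 2) * (k + p) = 2 * x ^ 2 * (1 + x ^ 2) := by
    linear_combination (1 + x) * (1 + x ^ 2) * e1 + (1 - x) * (1 + x ^ 2) * e2
  have eD : (1 - x) * (1 + x) * (1 + x ^ 2) * (q - p) = -(2 * x ^ 2 * (1 - x)) := by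
    linear_combination (1 - x) * (1 + x) * e3 - (1 - x) * (1 + x ^ 2) * e2
  linear_combination ((1 - x) * (1 + x) * (1 + x ^ 2) / 2) * (h1 + h2) - eK
    + ((a + b) / 2) * eB - (x * (a * f + b * f') / 2) * eD

include hk hk'

lemma nonear_PartE1 {Φ : ℝ → Prop} (hΦ : ∀ φ, Φ φ → φ ≤ 1 / 10) {z : ℝ} (h1 : z ≠ R 2 x)
    (h2 : |z - R 2 x| ≤ 0.0049)
    (hN : ∀ n, SR x z n → |n| ≤ kap x → ∃ φ, Φ φ ∧ |n| = nd x φ) : False := by
  obtain ⟨-, -, ⟨r1, r2⟩, -⟩ := num_PartE1 xa xb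
  obtain ⟨z', a, b, c⟩ := near_two xa xb h1 h2
  obtain ⟨φ, d, e⟩ := hN z' a (by linarith only [hk', c])
  have := nd_PartE1 xa xb (hΦ φ d)
  have := hk
  linarith

lemma direct_PartE1 {Φ : ℝ → Prop} (hΦ : ∀ φ, Φ φ → φ ≤ 1 / 10) {z : ℝ} (h1 : -kap x ≤ z)
    (h2 : z ≤ R 2 x + 0.0049) (hN : ∀ n, Rch x z n → |n| ≤ kap x → ∃ φ, Φ φ ∧ |n| = nd x φ) :
    ∃ E : ℝ, (E = 1 ∨ ∃ φ, Φ φ ∧ (E = 1 + x ^ 2 - x ^ 2 * φ ∨ E = 1 / x ^ 2 - x ^ 2 + x ^ 2 * φ)) ∧
      z - R 1 x = (R 2 x - R 1 x) * E := by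
  have h0 : 0 < x := by linarith only [xa]
  obtain ⟨⟨k1, k2⟩, -, ⟨r1, r2⟩, -⟩ := num_PartE1 xa xb
  have hz : |z| ≤ R 2 x + 0.0049 := abs_le.2 ⟨by linarith only [hk, h1], h2⟩
  by_cases hn : abs (abs z - R 2 x) ≤ 0.0049
  · by_cases he : |z| = R 2 x
    · refine ⟨1, Or.inl rfl, ?_⟩
      rcases abs_choice z with h | h <;> rw [h] at he <;> linarith only [he, hk, h1]
    · exfalso
      refine nonear_PartE1 xa xb hk hk' hΦ he hn fun n a b => ?_
      rcases abs_choice z with h | h <;> rw [h] at a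
      · exact hN n (a.rch h0) b
      · have c := (a.rch h0).neg
        rw [neg_neg] at c
        simpa only [abs_neg] using hN (-n) c (by simpa using b)
  · push Not at hn
    have hz' : |z| ≤ kap x := by
      rcases lt_abs.1 hn with h | h <;> linarith only [hz, h, hk']
    obtain ⟨φ, a, b⟩ := hN z (Rch.refl _ _) hz'
    obtain ⟨e1, e2, e3⟩ := eqs_PartE1 xa xb
    unfold nd at b
    have hx1 : (1 + x) ≠ 0 := by linarith only [xa]
    have hx2 : (1 + x ^ 2) ≠ 0 := by positivity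
    have u1 : (R 2 x - R 1 x) * (1 + x ^ 2) = -((1 - x) * (kap x + R 1 x)) := by
      apply mul_left_cancel₀ hx1
      linear_combination (1 + x) * e3 + (1 + x) * e1 + ((1 - x) - (1 + x ^ 2)) * e2
    have u2 : (R 2 x - R 1 x) * (1 / x ^ 2 - x ^ 2) = (1 - x) * (kap x + R 1 x) - 2 * R 1 x := by
      have u3 : 1 / x ^ 2 - x ^ 2 = (1 + x ^ 2) * (1 - x ^ 2) / x ^ 2 := by field_simp; ring
      rw [u3, ← mul_div_assoc, ← mul_assoc, u1, div_eq_iff (by positivity)]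
      apply mul_left_cancel₀ hx1
      linear_combination (-(1 + x)) * e1 + (2 * x ^ 2 - (1 - x)) * e2
    rcases abs_choice z with h | h <;> rw [h] at b
    · refine ⟨_, Or.inr ⟨φ, a, Or.inl rfl⟩, ?_⟩
      linear_combination b - u1
    · refine ⟨_, Or.inr ⟨φ, a, Or.inr rfl⟩, ?_⟩
      linear_combination (-1 : ℝ) * b - u2

theorem exit_lemma {Φ : ℝ → Prop} (hΦ : ∀ φ, Φ φ → φ ≤ 1 / 10) {z : ℝ} (h1 : -kap x ≤ z)
    (h2 : z ≤ 1 + x * kap x) (hN : ∀ n, Rch x z n → |n| ≤ kap x → ∃ φ, Φ φ ∧ |n| = nd x φ) :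
    ∃ f, FF x Φ f ∧ z = R 1 x + (R 2 x - R 1 x) * f := by
  have h0 : 0 < x := by linarith only [xa]
  obtain ⟨⟨k1, k2⟩, ⟨p1, p2⟩, ⟨r1, r2⟩, -⟩ := num_PartE1 xa xb
  obtain ⟨e1, e2, e3⟩ := eqs_PartE1 xa xb
  by_cases hz : z = R 1 x
  · exact ⟨0, ⟨0, 1, Or.inl rfl, Or.inl rfl, by ring⟩, by rw [hz]; ring⟩
  have hp : 0 < |z - R 1 x| := abs_pos.2 (sub_ne_zero.2 hz)
  obtain ⟨n, hn⟩ := pow_unbounded_of_one_lt (2 / |z - R 1 x|) (show (1 : ℝ) < 3 / 2 by norm_num)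
  rw [div_lt_iff₀ hp] at hn
  suffices H : ∃ (m : ℕ) (E : ℝ), (E = 1 ∨ ∃ φ, Φ φ ∧ (E = 1 + x ^ 2 - x ^ 2 * φ ∨
      E = 1 / x ^ 2 - x ^ 2 + x ^ 2 * φ)) ∧ z - R 1 x = (R 2 x - R 1 x) * ((-x) ^ m * E) by
    obtain ⟨m, E, a, b⟩ := H
    exact ⟨_, ⟨(-x) ^ m, E, Or.inr ⟨m, rfl⟩, a, rfl⟩, by linarith only [b]⟩
  have hxk : 0.1848 ≤ x * kap x ∧ x * kap x ≤ 0.19 := by constructor <;> nlinarith only [xa, k1, hk, r2, e1]
  clear hz hp
  induction n generalizing z with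
  | zero =>
    exfalso
    rw [pow_zero, one_mul] at hn
    rcases lt_abs.1 hn with h | h <;> linarith only [xa, k2, p1, e1, h2, h, p2, h1]
  | succ n ih =>
    by_cases h : z ≤ R 2 x + 0.0049
    · obtain ⟨E, a, b⟩ := direct_PartE1 xa xb hk hk' hΦ h1 h hN
      exact ⟨0, E, a, by rw [b]; ring⟩
    · push Not at h
      have ez : z = (1 : ℤ) + x * -((1 - z) / x) := by push_cast; field_simp; ring
      have er : z - R 1 x = -x * ((1 - z) / x - R 1 x) := by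
        have : x * ((1 - z) / x) = 1 - z := by field_simp
        linear_combination this - e2
      obtain ⟨m, E, a, b⟩ := ih (z := (1 - z) / x) (by rw [le_div_iff₀ h0]; linarith only [h2])
        (by rw [div_le_iff₀ h0]; nlinarith only [xa, k1, r1, e3, h])
        (fun n a b => by
          simpa using hN (-n) ((Rch.one (Or.inl rfl) ez).trans a.neg) (by simpa using b))
        (by
          rw [er, abs_mul, abs_neg, abs_of_pos h0, pow_succ] at hn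
          have t1 : (0 : ℝ) < (3 / 2) ^ n := by positivity
          have t2 := mul_nonneg t1.le (abs_nonneg ((1 - z) / x - R 1 x))
          nlinarith only [xa, xb, hn])
      exact ⟨m + 1, E, a, by rw [er, b]; ring⟩

lemma side_PartE1 {Φ : ℝ → Prop} (hΦ : ∀ φ, Φ φ → φ ≤ 1 / 10) {w : ℝ} (h1 : 0 < kap x + w)
    (h2 : kap x + w ≤ 1.3) (hN : ∀ n, SR x w n → |n| ≤ kap x → ∃ φ, Φ φ ∧ |n| = nd x φ) :
    ∃ (r : ℕ) (f : ℝ), (1.3 * x ^ (r + 1) < kap x + w ∧ kap x + w ≤ 1.3 * x ^ r) ∧ FF x Φ f ∧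
      (-5 / 4 ≤ f ∧ f ≤ 2) ∧ kap x + w = x ^ r * (kap x + R 1 x - x * (R 2 x - R 1 x) * f) := by
  have h0 : 0 < x := by linarith only [xa]
  have hx1 : x < 1 := by linarith only [xb, hk, hk']
  obtain ⟨⟨k1, k2⟩, ⟨p1, p2⟩, ⟨r1, r2⟩, -⟩ := num_PartE1 xa xb
  obtain ⟨e1, e2, e3⟩ := eqs_PartE1 xa xb
  obtain ⟨q1, q2⟩ := q_PartE1 xa xb
  obtain ⟨r, a, b⟩ := exists_nat_pow_near_of_lt_one (x := (kap x + w) / 1.3) (y := x)
    (by positivity) (by rw [div_le_iff₀ (by norm_num)]; linarith only [h2]) h0 hx1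
  rw [lt_div_iff₀ (by norm_num)] at a
  rw [div_le_iff₀ (by norm_num)] at b
  have hr : 0 < x ^ r := by positivity
  obtain ⟨u, hu⟩ : ∃ u, u = (kap x + w) / x ^ r := ⟨_, rfl⟩
  have hu' : kap x + w = x ^ r * u := by rw [hu]; field_simp
  have u1 : 1.3 * x < u := by
    rw [hu, lt_div_iff₀ hr]; rw [pow_succ] at a; linarith only [a]
  have u2 : u ≤ 1.3 := by rw [hu, div_le_iff₀ hr]; linarith only [b]
  have ka := kap_add_one hx1
  have hs : SR x w (-((kap x + 1 - u) / x)) := by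
    refine ⟨1, Or.inl rfl, ?_⟩
    have c := rch_scale h0 hx1 r ((kap x + w) / x)
    have c1 : -(1 / (1 - x)) + (kap x + w) / x = (w - ((1 : ℤ) : ℝ)) / x := by
      rw [eq_div_iff h0.ne']
      have : (kap x + w) / x * x = kap x + w := by field_simp
      push_cast
      linear_combination this + ka
    have c2 : -(1 / (1 - x)) + (kap x + w) / x / x ^ r = -((kap x + 1 - u) / x) := by
      rw [ka, hu]; field_simp; ring
    rwa [c1, c2] at c
  have hxk : 0.1848 ≤ x * kap x ∧ x * kap x ≤ 0.19 := by constructor <;> nlinarith only [k1, e1, xa, k2]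
  obtain ⟨f, c1, c2⟩ := exit_lemma xa xb hk hk' hΦ (z := (kap x + 1 - u) / x)
    (by rw [le_div_iff₀ h0]; linarith only [xb, hk', r1, e1, u2]) (by rw [div_le_iff₀ h0]; nlinarith only [xa, k1, k2, e3, u1])
    (fun n a b => by simpa using hN (-n) (hs.trans_rch a.neg) (by simpa using b))
  rw [div_eq_iff h0.ne'] at c2
  have c3 : u = kap x + R 1 x - x * (R 2 x - R 1 x) * f := by linear_combination -c2 - e2
  refine ⟨r, f, ⟨by linarith only [a], by linarith only [b]⟩, c1, ?_, by rw [← c3]; exact hu'⟩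
  generalize x * (R 2 x - R 1 x) = q at q1 q2 c3
  constructor
  · by_contra h; push Not at h; nlinarith only [xa, k2, p2, u1, q1, c3, h]
  · by_contra h; push Not at h; nlinarith only [xa, xb, k1, p2, e2, u2, q1, c3, h]

theorem node_step {Φ : ℝ → Prop} (hΦ : ∀ φ, Φ φ → φ ≤ 1 / 10) {v : ℝ} (h1 : 0 ≤ v)
    (h2 : v ≤ kap x) (hN : ∀ n, SR x v n → |n| ≤ kap x → ∃ φ, Φ φ ∧ |n| = nd x φ) :
    ∃ (r r' : ℕ) (f f' : ℝ), (2 ≤ r ∧ r ≤ 9) ∧ (1 ≤ r' ∧ r' ≤ 2) ∧ FF x Φ f ∧ FF x Φ f' ∧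
      (-5 / 4 ≤ f ∧ f ≤ 2) ∧ (-5 / 4 ≤ f' ∧ f' ≤ 2) ∧
      kap x - v = x ^ r * (kap x + R 1 x - x * (R 2 x - R 1 x) * f) ∧
      kap x + v = x ^ r' * (kap x + R 1 x - x * (R 2 x - R 1 x) * f') := by
  have h0 : 0 < x := by linarith only [xa]
  have hx1 : x < 1 := by linarith only [xb, hk, hk']
  obtain ⟨⟨k1, k2⟩, -, ⟨r1, r2⟩, s1, s2⟩ := num_PartE1 xa xb
  have hv : v ≤ R 2 x - 0.0049 := by
    by_contra h
    push Not at h
    exact nonear_PartE1 xa xb hk hk' hΦ (z := v) (by linarith only [hk, h2] : v < R 2 x).ne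
      (abs_le.2 ⟨by linarith only [h], by linarith only [hk, h2]⟩) hN
  obtain ⟨r, f, ⟨a1, a2⟩, a3, a4, a5⟩ := side_PartE1 xa xb hk hk' hΦ (w := -v) (by linarith only [hk', hv])
    (by linarith only [h1, k2]) (fun n a b => by
      have c := a.neg
      rw [neg_neg] at c
      simpa only [abs_neg] using hN (-n) c (by simpa using b))
  obtain ⟨r', f', ⟨b1, b2⟩, b3, b4, b5⟩ := side_PartE1 xa xb hk hk' hΦ (w := v) (by linarith only [hk', h1, r1])
    (by linarith only [hk', k2, hv]) hN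
  refine ⟨r, r', f, f', ⟨?_, ?_⟩, ⟨?_, ?_⟩, a3, b3, a4, b4, by rw [← a5]; ring, b5⟩
  · by_contra h
    have := pow_le_pow_of_le_one h0.le hx1.le (show r + 1 ≤ 2 by omega)
    linarith only [h1, k2, s1, a1, this]
  · by_contra h
    have t := pow_le_pow_of_le_one h0.le hx1.le (show 10 ≤ r by omega)
    have t2 : x ^ 10 ≤ 0.5699 ^ 10 := pow_le_pow_left₀ h0.le xb 10
    norm_num at t2
    linarith only [hk', hv, a2, t, t2]
  · by_contra h
    have : r' = 0 := by omega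
    subst this
    rw [zero_add, pow_one] at b1
    linarith only [xa, hk', k2, hv, b1]
  · by_contra h
    have t := pow_le_pow_of_le_one h0.le hx1.le (show 3 ≤ r' by omega)
    have t2 : x ^ 3 ≤ 0.5699 ^ 3 := pow_le_pow_left₀ h0.le xb 3
    norm_num at t2
    linarith only [hk', h1, r1, b2, t, t2]

theorem E_ind {Φ : ℝ → Prop} (hΦ : ∀ φ, Φ φ → φ ≤ 1 / 10)
    (hcl : ∀ (r r' : ℕ) (f f' : ℝ), 2 ≤ r → r ≤ 9 → 1 ≤ r' → r' ≤ 2 → FF x Φ f → FF x Φ f' →
      -5 / 4 ≤ f → f ≤ 2 → -5 / 4 ≤ f' → f' ≤ 2 → NE (-x) r r' f f' → r' = 1 ∧ Φ f') :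
    Inft x (kap x) := by
  have h0 : 0 < x := by linarith only [xa]
  have h0' : 1 / 2 ≤ x := by linarith only [xa]
  have hx1 : x < 1 := by linarith only [xb, hk, hk']
  by_contra hf
  have key := fin_ind (x := x) (Q := fun y => |y| ≤ kap x → ∃ φ, Φ φ ∧ |y| = nd x φ)
    (fun y hy ih hb => by
      obtain ⟨r, r', f, f', ⟨a1, a2⟩, ⟨a3, a4⟩, a5, a6, ⟨a7, a8⟩, ⟨a9, a10⟩, b1, b2⟩ :=
        node_step xa xb hk hk' hΦ (abs_nonneg y) hb (fun n a b => by
          have c := a.lt h0' hx1 (by rwa [abs_abs]) (by rwa [inft_abs])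
          rw [encard_abs] at c
          exact ih n c b)
      obtain ⟨c1, c2⟩ := hcl r r' f f' a1 a2 a3 a4 a5 a6 a7 a8 a9 a10 (node_eq xa xb b1 b2)
      subst c1
      refine ⟨f', c2, ?_⟩
      unfold nd
      linear_combination b2)
  exact nonear_PartE1 xa xb hk hk' hΦ hk.ne (abs_le.2 ⟨by linarith only [hk, hk'], by linarith only [hk]⟩)
    fun n a b => key n (fun c => hf (a.inft h0 hx1 c)) b

theorem E_term (hf : ¬ Inft x (kap x))
    (hcl : ∀ (r r' : ℕ) (f f' : ℝ), 2 ≤ r → r ≤ 9 → 1 ≤ r' → r' ≤ 2 → FF x (fun _ => False) f →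
      FF x (fun _ => False) f' → -5 / 4 ≤ f → f ≤ 2 → -5 / 4 ≤ f' → f' ≤ 2 → NE (-x) r r' f f' →
      r = 4 ∧ r' = 1) :
    ∃ A B : ℝ, (A = 0 ∨ ∃ a : ℕ, A = (-x) ^ a) ∧ (B = 0 ∨ ∃ b : ℕ, B = (-x) ^ b) ∧
      (1 - 2 * x + x ^ 2 - x ^ 3) * ((1 + x) ^ 2 * (1 + x ^ 2)) = B - A := by
  have h0 : 0 < x := by linarith only [xa]
  have h0' : 1 / 2 ≤ x := by linarith only [xa]
  have hx1 : x < 1 := by linarith only [xb, hk, hk']
  obtain ⟨⟨k1, k2⟩, -⟩ := num_PartE1 xa xb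
  obtain ⟨v, v1, v2, v3⟩ := exists_term h0' hx1 (y := kap x) (by rw [abs_of_nonneg (by linarith only [k1])]) hf
  obtain ⟨r, r', f, f', ⟨a1, a2⟩, ⟨a3, a4⟩, a5, a6, ⟨a7, a8⟩, ⟨a9, a10⟩, b1, b2⟩ :=
    node_step xa xb hk hk' (Φ := fun _ => False) (fun _ h => h.elim) v1 v2 (fun n a b =>
      absurd ((v3.sr_uq h0 hx1 a).out h0' hx1) (not_lt.2 b))
  have ne := node_eq xa xb b1 b2
  obtain ⟨c1, c2⟩ := hcl r r' f f' a1 a2 a3 a4 a5 a6 a7 a8 a9 a10 ne
  subst c1 c2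
  have key : ∀ (k : ℕ) (g : ℝ), FF x (fun _ => False) g →
      ((-x) ^ k * g = 0 ∨ ∃ a : ℕ, (-x) ^ k * g = (-x) ^ a) := by
    rintro k g ⟨t, E, ht, hE | ⟨φ, h, -⟩, hg⟩
    · rcases ht with ht | ⟨m, ht⟩
      · left; rw [hg, ht]; ring
      · right; exact ⟨k + m, by rw [hg, ht, hE]; ring⟩
    · exact h.elim
  refine ⟨_, _, key 4 f' a6, key 7 f a5, ?_⟩
  unfold NE at ne
  apply mul_left_cancel₀ (show 1 - x ≠ 0 by linarith only [xb, hk, hk'])
  linear_combination (-1 : ℝ) * ne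

end

end Pool.Agent.KExp
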