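import Pool.Agent.MP_bd9604_nt.Inf.Base

attribute [-instance] IdemSemiring.toCanonicallyOrderedAdd AddQuantale.instAddLeftMono
  IdemSemiring.toMulLeftMono IsOrderedMonoid.toMulLeftMono NumberField.to_charZero
  Quantale.instMulLeftMono AddQuantale.instAddRightMono
  LinearOrderedCommMonoidWithZero.toPosMulStrictMono CanonicallyOrderedAdd.toMulLeftMono
  Quantale.instMulRightMono RKHS.instFunLike Group.IsPerfect.subsingleton_of_isMulCommutative
  CompletePartialOrder.toPartialOrder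

/-! The bases up to the second level: `R 2 x ≤ kap x`.

term_eq: let v be terminal, 0 <= v <= kap x, R 2 <= kap < R 1, so (sqrt 5 - 1) / 2 > x > 0.5698 (R 1 = 1 / (1 + x),
R 2 = (1 - x) / (1 + x^2); R 2 <= kap iff p = 1 - 2 x + x^2 - x^3 <= 0; kap < R 1 iff x^2 + x < 1). By struct_pos with n = 1, m = 0,
t = 1 (P 0 = 1, X 0 = x, R 0 = 1 / (1 - x)) each child is T x u with u constant or s^a followed by an alternating word. With
B = kap + R 1 = 2 x^2 / (1 - x^2): the child (v + 1) / x >= 1 / x > R 1 is 1 / (1 - x) (iff v = kap) or, for some r >= 1,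
kap - v = x^r B (1 / (1 - x) - T x (+^a (- +)^oo) = x^a (1 / (1 - x) + 1 / (1 + x)) = x^(a-2) B ...). Same for - v (Term.neg).
Adding: x^i + x^j = (2 x - 1) (1 + x), or x^i = (2 x - 1) (1 + x), with natural i, j. Let i <= j, h = (2 x - 1) (1 + x).
i <= 2: x^i >= x^2 > h. i >= 4: 2 x^4 < h. i = 3: x^3 + x^j - h is (1 - x)(1 - 2 x^2) > 0 for j = 3, (1 - x^2)(1 - x - x^2) > 0 for j = 4,
p (1 + x) (1 - x^2) <= 0 for j = 6 (zero iff p = 0, i.e. kap = R 2), negative for j >= 7 or no j.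
partF: if R 1 <= kap use exists_term and level_zero. Else term_eq: if kap = R 2 = P 1 - X 1 * R 2 (R_succ) then blk gives
SR x kap (- kap) and loop_inft applies; the root of x^5 + x^3 - 2 x^2 - x + 1 lies in the given interval
(this polynomial is decreasing on [0.5698, 0.6181]; the root is 0.58457513336441...). -/

namespace Pool.Agent.KExp

lemma R_one_PartF {x : ℝ} (h0 : 0 < x) (h1 : x < 1) : R 1 x = 1 / (1 + x) := by
  simpa using R_succ' h0 h1 0

lemma R_two_PartF {x : ℝ} (h0 : 0 < x) (h1 : x < 1) : R 2 x = (1 - x) / (1 + x ^ 2) := by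
  have := R_succ' h0 h1 1
  rwa [show P 1 x = 1 - x by simpa using P_succ 0 x, show X 1 x = x ^ 2 by simpa using X_succ 0 x]
    at this

lemma T_pre_PartF {x : ℝ} (h0 : 0 < x) (h1 : x < 1) {u : ℕ → ℤ} (hu : Sg u) {a : ℕ} {s s' : ℤ}
    (hs' : s' = 1 ∨ s' = -1) (e1 : ∀ i < a, u i = s) (e2 : ∀ i, u (i + a) = phi (fun _ => s') i) :
    T x u * (1 - x ^ 2) = s * (1 - x ^ a) * (1 + x) + x ^ a * s' * (1 - x) := by
  have hx2 : x ^ 2 < 1 := pow_lt_one₀ h0.le h1 two_ne_zero
  have hn : 1 - x ^ 2 ≠ 0 := by linarith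
  have a1 : ∑ i ∈ Finset.range a, (u i : ℝ) * x ^ i = s * ∑ i ∈ Finset.range a, x ^ i := by
    rw [Finset.mul_sum]
    exact Finset.sum_congr rfl fun i hi => by rw [e1 i (Finset.mem_range.1 hi)]
  have a2 := geom_sum_mul_neg x a
  rw [T_split h0.le h1 hu.abs_le a, a1, show (fun i => u (i + a)) = phi (fun _ => s') from funext e2,
    T_phi h0.le h1 (fun _ => hs'), T_const (sq_nonneg x) hx2, ← a2]
  field_simp
  ring

lemma child_PartF {x v : ℝ} (h0 : 1 / 2 < x) (h1 : x < 1) (h2 : R 2 x ≤ kap x)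
    (h3 : kap x < R 1 x) (hv : |v| ≤ kap x) (hu : Uq x ((v + 1) / x)) :
    (kap x - v) * (1 - x ^ 2) = 0 ∨ ∃ i : ℕ, (kap x - v) * (1 - x ^ 2) = 2 * x ^ i := by
  have x0 : 0 < x := by linarith
  have x1 : 0 < 1 - x := by linarith only [h1]
  have hk := kap_add_one h1
  have hk' := kap_mul h1
  obtain ⟨v1, v2⟩ := abs_le.1 hv
  rw [R_one_PartF x0 h1, lt_div_iff₀ (by linarith only [h0, h1])] at h3
  set y := (v + 1) / x with hy
  have hxy : x * y = v + 1 := by rw [hy]; field_simp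
  have ylo : 1 < y * (1 + x) := by
    refine lt_of_mul_lt_mul_left (a := x) ?_ x0.le
    nlinarith only [h0, h3, v1, hxy]
  have y0 : 0 < y := by
    by_contra hc
    nlinarith only [h0, ylo, hc]
  have yhi : |y| ≤ R 0 x := by
    rw [R_zero, abs_of_pos y0]
    exact le_of_mul_le_mul_left (a := x) (by linarith only [hk, v2, hxy]) x0
  have key : (kap x - v) * (1 - x ^ 2) = x * ((1 + x) - y * (1 - x ^ 2)) := by
    linear_combination (1 + x) * hk' + (1 - x ^ 2) * hxy
  obtain ⟨u, hu1, e⟩ := struct_pos h0.le h1 (n := 1) h2 1 0 rfl y hu yhi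
  rw [P_zero, X_zero, one_mul] at e
  have hsg := hu1.sg
  rcases hu1 with ⟨s, hs, hc⟩ | ⟨a, s, u', hs, ⟨s', hs', hc⟩, e1, e2⟩
  · rw [show u = fun _ => s from funext hc, T_const x0.le h1] at e
    rcases hs with rfl | rfl
    · left
      rw [key, e]
      field_simp
      push_cast
      ring
    · exfalso
      rw [e] at y0
      have := (div_pos_iff_of_pos_right x1).1 y0
      norm_num at this
  · rw [show u' = fun _ => s' from funext hc] at e2
    have e3 := T_pre_PartF x0 h1 hsg hs' e1 e2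
    rw [← e] at e3
    have p0 := pow_pos x0 a
    have p1 : x ^ a ≤ 1 := pow_le_one₀ x0.le h1.le
    rcases hs with rfl | rfl
    · right
      rcases hs' with rfl | rfl
      · exact ⟨a + 2, by rw [key, e3]; push_cast; ring⟩
      · exact ⟨a + 1, by rw [key, e3]; push_cast; ring⟩
    · exfalso
      have b1 : 1 - x < y * (1 - x ^ 2) := by nlinarith only [h1, ylo]
      have b2 : 0 ≤ (1 - x ^ a) * (1 + x) := mul_nonneg (by linarith only [p1]) (by linarith only [h0, h1])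
      have b3 : 0 ≤ (1 - x ^ a) * (1 - x) := mul_nonneg (by linarith only [p1]) x1.le
      have b4 := mul_pos p0 x1
      rcases hs' with rfl | rfl <;> push_cast at e3 <;> linarith only [p1, b1, e3, h1, b2, b4]

lemma pair_PartF {x : ℝ} (h0 : 1 / 2 < x) (hq : x ^ 2 + x < 1) (hp : 1 - 2 * x + x ^ 2 - x ^ 3 ≤ 0)
    {i j : ℕ} (hij : i ≤ j) (h : x ^ i + x ^ j = (2 * x - 1) * (1 + x)) :
    1 - 2 * x + x ^ 2 - x ^ 3 = 0 ∨ x ^ 5 + x ^ 3 - 2 * x ^ 2 - x + 1 = 0 := by
  have x0 : 0 < x := by linarith only [h0]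
  have x1 : x < 1 := by nlinarith only [hq]
  have anti : ∀ {a b : ℕ}, a ≤ b → x ^ b ≤ x ^ a := fun h => pow_le_pow_of_le_one x0.le x1.le h
  have c0 : 0 < (1 + x) * (1 - x ^ 2) := mul_pos (by linarith) (by linarith)
  have c1 : x ^ 3 + x ^ 6 - (2 * x - 1) * (1 + x) =
      (1 - 2 * x + x ^ 2 - x ^ 3) * ((1 + x) * (1 - x ^ 2)) := by ring
  have c2 := mul_nonpos_of_nonpos_of_nonneg hp c0.le
  have pj := pow_pos x0 j
  rcases le_or_gt i 2 with hi | hi
  · have := anti hi
    linarith only [hq, h, pj, this]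
  rcases le_or_gt 4 i with hi' | hi'
  · have a1 := anti hi'
    have a2 := anti (hi'.trans hij)
    have a3 : 0 < x ^ 3 * ((1 - x) * (1 - x - x ^ 2)) :=
      mul_pos (pow_pos x0 3) (mul_pos (by linarith only [x1]) (by linarith only [hq]))
    linarith only [h, c2, a1, a2, a3]
  obtain rfl : i = 3 := by omega
  rcases le_or_gt j 4 with hj | hj
  · have a1 := anti hj
    have a2 : 0 < (1 - x ^ 2) * (1 - x - x ^ 2) := mul_pos (by linarith only [hq, hp, x1, pj, h]) (by linarith only [hq])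
    linarith only [h, a1, a2]
  rcases le_or_gt 7 j with hj' | hj'
  · have a1 := anti hj'
    have a2 : 0 < x ^ 6 * (1 - x) := mul_pos (pow_pos x0 6) (by linarith only [x1])
    linarith only [c2, h, a1, a2]
  obtain rfl | rfl : j = 5 ∨ j = 6 := by omega
  · right
    linear_combination h
  · left
    exact (mul_eq_zero.1 (by linarith only [c2, h])).resolve_right c0.ne'

lemma single_PartF {x : ℝ} (h0 : 1 / 2 < x) (hq : x ^ 2 + x < 1)
    (hp : 1 - 2 * x + x ^ 2 - x ^ 3 ≤ 0) {i : ℕ} : x ^ i ≠ (2 * x - 1) * (1 + x) := fun h => by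
  have x0 : 0 < x := by linarith
  have x1 : x < 1 := by nlinarith only [hq]
  have anti : ∀ {a b : ℕ}, a ≤ b → x ^ b ≤ x ^ a := fun h => pow_le_pow_of_le_one x0.le x1.le h
  have c0 : 0 < (1 + x) * (1 - x ^ 2) := mul_pos (by linarith) (by linarith)
  have c2 := mul_nonpos_of_nonpos_of_nonneg hp c0.le
  rcases le_or_gt i 2 with hi | hi
  · have := anti hi
    linarith only [hq, h, this]
  · have := anti (show 3 ≤ i from hi)
    have := pow_pos x0 6
    nlinarith

theorem term_eq {x v : ℝ} (h0 : 1 / 2 < x) (h1 : x < 1) (h2 : R 2 x ≤ kap x) (h3 : kap x < R 1 x)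
    (hv0 : 0 ≤ v) (hv : v ≤ kap x) (ht : Term x v) :
    kap x = R 2 x ∨ x ^ 5 + x ^ 3 - 2 * x ^ 2 - x + 1 = 0 := by
  have x0 : 0 < x := by linarith
  have x1 : 0 < 1 - x := by linarith only [h1]
  have hva : |v| ≤ kap x := by rwa [abs_of_nonneg hv0]
  have c1 := child_PartF h0 h1 h2 h3 hva ht.2
  have c2 := child_PartF h0 h1 h2 h3 (by rwa [abs_neg]) ht.neg.2
  have hk := kap_mul h1
  have hs : (kap x - v) * (1 - x ^ 2) + (kap x - -v) * (1 - x ^ 2) = 2 * ((2 * x - 1) * (1 + x)) := by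
    linear_combination 2 * (1 + x) * hk
  have x2 : 0 < 1 + x ^ 2 := by positivity
  have hq : x ^ 2 + x < 1 := by
    rw [R_one_PartF x0 h1, kap, div_lt_div_iff₀ x1 (by linarith only [h0, h1])] at h3
    linarith only [h3]
  have hp : 1 - 2 * x + x ^ 2 - x ^ 3 ≤ 0 := by
    rw [R_two_PartF x0 h1, kap, div_le_div_iff₀ x2 x1] at h2
    linarith only [h2]
  have fin : 1 - 2 * x + x ^ 2 - x ^ 3 = 0 → kap x = R 2 x := fun h => by
    rw [R_two_PartF x0 h1, kap, div_eq_div_iff x1.ne' x2.ne']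
    linear_combination (-2) * h
  rcases c1 with a | ⟨i, a⟩ <;> rcases c2 with b | ⟨j, b⟩
  · have : 0 < (2 * x - 1) * (1 + x) := mul_pos (by linarith only [h0]) (by linarith only [h0, hs, hq, a, b])
    linarith only [hs, a, b, this]
  · exact absurd (by linarith only [hs, a, b]) (single_PartF h0 hq hp (i := j))
  · exact absurd (by linarith only [hs, a, b]) (single_PartF h0 hq hp (i := i))
  · rcases le_total i j with h | h
    · exact (pair_PartF h0 hq hp h (by linarith only [hs, a, b])).imp_left fin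
    · exact (pair_PartF h0 hq hp h (by linarith only [hs, a, b])).imp_left fin

lemma anti_PartF {a b : ℝ} (ha : 1 / 2 ≤ a) (hab : a ≤ b) (hb : b ≤ 2 / 3) :
    b ^ 5 + b ^ 3 - 2 * b ^ 2 - b + 1 ≤ a ^ 5 + a ^ 3 - 2 * a ^ 2 - a + 1 := by
  have a0 : 0 ≤ a := by linarith only [ha]
  have ha' : a ≤ 2 / 3 := hab.trans hb
  have b0 : 0 ≤ b := by linarith only [ha, hab]
  have e1 : a ^ 2 + a * b + b ^ 2 ≤ (2 / 3) ^ 2 + 2 / 3 * (2 / 3) + (2 / 3) ^ 2 := by gcongr
  have e2 : a ^ 4 + a ^ 3 * b + a ^ 2 * b ^ 2 + a * b ^ 3 + b ^ 4 ≤ (2 / 3) ^ 4 + (2 / 3) ^ 3 * (2 / 3) +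
      (2 / 3) ^ 2 * (2 / 3) ^ 2 + 2 / 3 * (2 / 3) ^ 3 + (2 / 3) ^ 4 := by gcongr
  have e3 : 0 ≤ (b - a) * (1 + 2 * (a + b) - (a ^ 2 + a * b + b ^ 2) -
      (a ^ 4 + a ^ 3 * b + a ^ 2 * b ^ 2 + a * b ^ 3 + b ^ 4)) :=
    mul_nonneg (by linarith only [hab]) (by norm_num only [] at e1 e2; linarith)
  linarith only [e3]

theorem partF {x : ℝ} (h0 : 1 / 2 < x) (h1 : x < 1) (h2 : R 2 x ≤ kap x)
    (hs : 0.584575133 ≤ x → x ≤ 0.584575134 → Inft x (kap x)) : Inft x (kap x) := by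
  have x0 : 0 < x := by linarith
  have k0 : 0 ≤ kap x := (R_pos x0 h1 2).le.trans h2
  have hk : |kap x| ≤ kap x := (abs_of_nonneg k0).le
  by_contra hf
  obtain ⟨v, hv0, hv, ht⟩ := exists_term h0.le h1 hk hf
  rcases le_or_gt (R 1 x) (kap x) with h3 | h3
  · exact level_zero h0 h1 h3 (by rwa [abs_of_nonneg hv0]) ht
  rcases term_eq h0 h1 h2 h3 hv0 hv ht with e | e
  · refine hf (loop_inft h0.le h1 hk (Or.inr ⟨1, Or.inl rfl, ?_⟩))
    have a := blk x0 1 1 (Or.inl rfl) (-kap x)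
    have b : R 2 x = P 1 x - X 1 x * R 2 x := R_succ x0 h1 1
    rw [← e] at b
    rwa [show ((1 : ℤ) : ℝ) * P 1 x + X 1 x * -kap x = kap x by push_cast; linarith only [b]] at a
  · have hq : x ≤ 2 / 3 := by
      rw [R_one_PartF x0 h1, kap, div_lt_div_iff₀ (by linarith only [h1]) (by linarith only [h0, h1])] at h3
      nlinarith only [h3]
    refine hf (hs (le_of_not_gt fun hc => ?_) (le_of_not_gt fun hc => ?_))
    · have := anti_PartF h0.le hc.le (by norm_num)
      rw [e] at this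
      norm_num at this
    · have := anti_PartF (by norm_num) hc.le hq
      rw [e] at this
      norm_num at this

end Pool.Agent.KExp
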